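import Pool.Agent.MP_7a2f31_al.Final

namespace Pool.Agent.Results.MP_7a2f31_al.SasmWild

open Matrix Pool.Agent.MP_7a2f31_al

/-- Over a field `Φ` of characteristic not 2 the classification of the maximal SASMs is wild if
and only if `-1` is a sum of squares in `Φ`: for every `k` and all large `n`, the classification
of the maximal SASMs of `M_n(Φ)` up to equivalence contains the classification of pairs of
`k × k` matrices up to simultaneous similarity. -/
theorem result (Φ : Type*) [Field Φ] (h2 : (2 : Φ) ≠ 0) :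
    IsSumSq (-1 : Φ) ↔
      ∀ k : ℕ, ∃ n₀ : ℕ, ∀ n ≥ n₀, ContainsPairs k (IsMaximalSASM (Φ := Φ) (n := n)) := by
  constructor
  · intro hsq k
    exact wild_sasm h2 hsq k
  · intro h
    by_contra hsq
    obtain ⟨n₀, hn₀⟩ := h 1
    refine not_contains hsq (fun V hV x hx => ?_) (hn₀ n₀ le_rfl)
    obtain ⟨h3, h4⟩ := hV.1 x hx
    rw [h4, h3]

end Pool.Agent.Results.MP_7a2f31_al.SasmWild
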